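import Pool.Agent.W9.PL.Defs
import Pool.Agent.H785R2.LP.Refine

/-!
# PL-LAT (helper52)
-/

set_option autoImplicit false

namespace Pool.Agent.W52.PL.Lat

open Pool.Agent.W9.PL Pool.Agent.H390R2.LP Finset

theorem choose_e {E ε : ℝ} (hE : 0 ≤ E) (hε : 0 < ε) : ∃ e : ℝ, 0 < e ∧ e < 1 ∧ e ≤ ε ∧
    (E + e) / (1 - e) + e ≤ E + ε := by
  have hD : 0 < 2 * (1 + E) + 1 := by linarith
  refine ⟨min (1/2) (ε / (2 * (1 + E) + 1)), lt_min (by norm_num) (by positivity), ?_, ?_, ?_⟩
  · exact lt_of_le_of_lt (min_le_left _ _) (by norm_num)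
  · refine (min_le_right _ _).trans (div_le_self hε.le ?_)
    linarith
  · set e := min (1/2) (ε / (2 * (1 + E) + 1)) with he
    have h0 : 0 < e := lt_min (by norm_num) (by positivity)
    have h1 : e ≤ 1 / 2 := min_le_left _ _
    have h2 : e * (2 * (1 + E) + 1) ≤ ε := by
      have := min_le_right (1/2 : ℝ) (ε / (2 * (1 + E) + 1))
      rw [← he, le_div_iff₀ hD] at this
      exact this
    have h3 : (E + e) / (1 - e) ≤ E + 2 * e * (1 + E) := by
      rw [div_le_iff₀ (by linarith)]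
      have h4 : 0 ≤ e * (1 + E) := by positivity
      nlinarith
    linarith

theorem exists_ge {n : ℕ} (hn : 1 ≤ n) {b : ℝ} (hb : 0 < b) {a : Fin n → ℝ}
    (h : b ^ n ≤ |∏ i, a i|) : ∃ k, b ≤ |a k| := by
  by_contra hc
  push Not at hc
  rw [Finset.abs_prod] at h
  have hpos : 0 < ∏ i, |a i| := lt_of_lt_of_le (by positivity) h
  have hne : ∀ i, 0 < |a i| := by
    intro i
    rcases (abs_nonneg (a i)).eq_or_lt with h0 | h0
    · exfalso
      rw [Finset.prod_eq_zero (mem_univ i) h0.symm] at hpos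
      exact lt_irrefl _ hpos
    · exact h0
  have hlt : ∏ i, |a i| < ∏ _i : Fin n, b :=
    Finset.prod_lt_prod_of_nonempty (fun i _ => hne i) (fun i _ => hc i)
      ⟨⟨0, hn⟩, mem_univ _⟩
  rw [Finset.prod_const, Finset.card_univ, Fintype.card_fin] at hlt
  linarith

theorem lat (h1 : IIDw) (h2 : S_cover) : S_lat := by
  classical
  intro Ω _ _ q s I _ f hf ε hε
  have hE : 0 ≤ s.E f := Pool.Agent.H785R2.LP.E_nonneg s f
  obtain ⟨e, he0, he1, heε, hee⟩ := choose_e hE hε
  obtain ⟨n0, hn0⟩ := h1 Ω (Fin q) I s f e he0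
  refine ⟨max n0 1, fun n hn g hg ν hν => ?_⟩
  have hn1 : 1 ≤ n := (le_max_right _ _).trans hn
  have hnn : n0 ≤ n := (le_max_left _ _).trans hn
  have hnR : (0 : ℝ) < n := by exact_mod_cast hn1
  have hdet : 0 < |g.det| := abs_pos.2 hg
  rcases le_or_gt ν 0 with hν0 | hν0
  · exact hν0.trans (by positivity)
  obtain ⟨B, hB⟩ : ∃ B : ℝ, B = |g.det| * Real.exp (-(n * (s.h - s.S - e))) := ⟨_, rfl⟩
  have hBpos : 0 < B := by rw [hB]; positivity
  obtain ⟨b, hb⟩ : ∃ b : ℝ, b = Real.exp (Real.log B / n) := ⟨_, rfl⟩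
  have hbpos : 0 < b := by rw [hb]; positivity
  have hbn : b ^ n = B := by
    rw [hb, ← Real.exp_nat_mul, mul_div_cancel₀ _ hnR.ne', Real.exp_log hBpos]
  have hlogB : Real.log B = Real.log |g.det| - n * (s.h - s.S - e) := by
    rw [hB, Real.log_mul hdet.ne' (Real.exp_pos _).ne', Real.log_exp]
    ring
  rcases lt_or_ge ν B with hνB | hνB
  · refine hνB.le.trans ?_
    rw [hB]
    apply mul_le_mul_of_nonneg_left _ hdet.le
    apply Real.exp_le_exp.2
    have h3 : (n : ℝ) * (s.E f + ε - e) ≥ 0 := mul_nonneg hnR.le (by linarith)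
    nlinarith
  · have hmin : ∀ z : Fin n → ℤ, z ≠ 0 → ∃ k, b ≤ |(g.mulVec fun j => (z j : ℝ)) k| := by
      intro z hz
      apply exists_ge hn1 hbpos
      rw [hbn]
      exact hνB.trans (hν z hz)
    obtain ⟨wt, w0, w1, w2, w3⟩ := h2 n q g b hg hbpos hmin
    have hlogνB : Real.log B ≤ Real.log ν := Real.log_le_log hBpos hνB
    have hd0 : 0 ≤ Real.log ν - Real.log B := by linarith
    have key := hn0 n hnn wt (Real.log ν - Real.log B) hd0 w0 (fun x => (w1 x).le) ?_ ?_
    · have hz : ∑ x : Fin n → Fin q, (∏ k, s.P (x k)) *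
          (1 - ∑ S ∈ univ.filter (fun S : Finset (Fin n → Fin q) => x ∈ S), wt S) = 0 := by
        apply Finset.sum_eq_zero
        intro x _
        rw [w1 x, sub_self, mul_zero]
      rw [hz, sub_zero] at key
      have h4 : Real.log ν - Real.log B ≤ n * ((s.E f + e) / (1 - e)) := by
        rw [← mul_div_assoc, le_div_iff₀ (by linarith)]
        exact key
      have h5 : (n : ℝ) * ((s.E f + e) / (1 - e) + e) ≤ n * (s.E f + ε) :=
        mul_le_mul_of_nonneg_left hee hnR.le
      have h6 : Real.log ν ≤ Real.log |g.det| + n * (s.E f - s.h + s.S + ε) := by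
        rw [hlogB] at h4
        nlinarith
      calc ν = Real.exp (Real.log ν) := (Real.exp_log hν0).symm
        _ ≤ Real.exp (Real.log |g.det| + n * (s.E f - s.h + s.S + ε)) := Real.exp_le_exp.2 h6
        _ = |g.det| * Real.exp (n * (s.E f - s.h + s.S + ε)) := by
            rw [Real.exp_add, Real.exp_log hdet]
    · intro S hS x hx y hy hxy
      obtain ⟨z, hz, hzk⟩ := w2 S hS x hx y hy hxy
      have h3 := hν z hz
      rw [Finset.abs_prod] at h3
      have h4 : ∏ i, |(g.mulVec fun j => (z j : ℝ)) i| ≤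
          ∏ k, (b * ((((x k : ℤ) - (y k : ℤ)).natAbs : ℝ) + 1)) :=
        Finset.prod_le_prod (fun i _ => abs_nonneg _) (fun k _ => hzk k)
      rw [Finset.prod_mul_distrib, Finset.prod_const, Finset.card_univ, Fintype.card_fin,
        hbn] at h4
      have h5 : Real.log ν ≤ Real.log (B * ∏ k, ((((x k : ℤ) - (y k : ℤ)).natAbs : ℝ) + 1)) :=
        Real.log_le_log hν0 (h3.trans h4)
      rw [Real.log_mul hBpos.ne' (Finset.prod_pos fun k _ => by positivity).ne',
        Real.log_prod (fun k _ => by positivity)] at h5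
      have h6 : ∑ k, ∑ i, (f i (x k) - f i (y k)) ^ 2 =
          ∑ k, Real.log ((((x k : ℤ) - (y k : ℤ)).natAbs : ℝ) + 1) := by
        apply Finset.sum_congr rfl
        intro k _
        rw [hf, add_comm]
      rw [h6]
      linarith
    · rw [w3, hbn, hB]
      have h3 : |g.det| / (|g.det| * Real.exp (-(n * (s.h - s.S - e)))) =
          Real.exp (n * (s.h - s.S - e)) := by
        rw [Real.exp_neg, div_mul_eq_div_div, div_self hdet.ne', one_div, inv_inv]
      rw [h3]

end Pool.Agent.W52.PL.Lat
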