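import Pool.Agent.W9.PL.Defs

/-!
# PL-LOG (helper52)
-/

set_option autoImplicit false

namespace Pool.Agent.W52.PL.Log

open Pool.Agent.W9.PL Finset

theorem re_taylor (r u : ℝ) (J : ℕ) :
    (Complex.logTaylor (J + 1) (-((r : ℂ) * Complex.exp ((2 * u : ℝ) * Complex.I)))).re =
      -∑ j ∈ Icc 1 J, r ^ j / j * Real.cos (2 * j * u) := by
  unfold Complex.logTaylor
  rw [Complex.re_sum, Finset.sum_range_succ', ← Finset.sum_neg_distrib]
  have h0 : ((-1 : ℂ) ^ (0 + 1) * (-((r : ℂ) * Complex.exp ((2 * u : ℝ) * Complex.I))) ^ 0 /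
      ((0 : ℕ) : ℂ)).re = 0 := by simp
  rw [h0, add_zero]
  have h1 : ∀ (f : ℕ → ℝ) (J : ℕ), ∑ j ∈ Icc 1 J, f j = ∑ j ∈ range J, f (j + 1) := by
    intro f J
    induction J with
    | zero => simp
    | succ J ih => rw [Finset.sum_Icc_succ_top (by omega), ih, Finset.sum_range_succ]
  rw [h1]
  apply Finset.sum_congr rfl
  intro j _
  have h2 : (-1 : ℂ) ^ (j + 1 + 1) * (-((r : ℂ) * Complex.exp ((2 * u : ℝ) * Complex.I))) ^ (j + 1) =
      -((r : ℂ) * Complex.exp ((2 * u : ℝ) * Complex.I)) ^ (j + 1) := by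
    rw [neg_pow ((r : ℂ) * Complex.exp ((2 * u : ℝ) * Complex.I)), ← mul_assoc, ← pow_add]
    have : (-1 : ℂ) ^ (j + 1 + 1 + (j + 1)) = -1 := by
      rw [show j + 1 + 1 + (j + 1) = 2 * (j + 1) + 1 by ring, pow_succ, pow_mul]
      simp
    rw [this]
    ring
  rw [h2, mul_pow, ← Complex.exp_nat_mul]
  have h3 : ((j + 1 : ℕ) : ℂ) * ((2 * u : ℝ) * Complex.I) =
      ((2 * ((j + 1 : ℕ) : ℝ) * u : ℝ) : ℂ) * Complex.I := by
    push_cast
    ring
  rw [h3]
  have h4 : -((r : ℂ) ^ (j + 1) * Complex.exp (((2 * ((j + 1 : ℕ) : ℝ) * u : ℝ) : ℂ) * Complex.I)) /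
      ((j + 1 : ℕ) : ℂ) = ((-(r ^ (j + 1) / ((j + 1 : ℕ) : ℝ)) : ℝ) : ℂ) *
        Complex.exp (((2 * ((j + 1 : ℕ) : ℝ) * u : ℝ) : ℂ) * Complex.I) := by
    push_cast
    ring
  rw [h4, Complex.re_ofReal_mul, Complex.exp_ofReal_mul_I_re]
  ring

theorem norm_one_sub (r u : ℝ) :
    ‖1 + -((r : ℂ) * Complex.exp ((2 * u : ℝ) * Complex.I))‖ ^ 2 =
      (1 - r) ^ 2 + 4 * r * Real.sin u ^ 2 := by
  rw [← Complex.normSq_eq_norm_sq, Complex.normSq_apply]
  have h1 : (1 + -((r : ℂ) * Complex.exp ((2 * u : ℝ) * Complex.I))).re =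
      1 - r * Real.cos (2 * u) := by
    rw [Complex.add_re, Complex.neg_re, Complex.re_ofReal_mul, Complex.exp_ofReal_mul_I_re,
      Complex.one_re]
    ring
  have h2 : (1 + -((r : ℂ) * Complex.exp ((2 * u : ℝ) * Complex.I))).im =
      -(r * Real.sin (2 * u)) := by
    rw [Complex.add_im, Complex.neg_im, Complex.im_ofReal_mul, Complex.exp_ofReal_mul_I_im,
      Complex.one_im]
    ring
  rw [h1, h2]
  have h3 := Real.sin_sq_add_cos_sq (2 * u)
  have h4 : Real.cos (2 * u) = 1 - 2 * Real.sin u ^ 2 := by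
    have := Real.sin_sq_add_cos_sq u
    rw [Real.cos_two_mul]
    linarith
  have h5 : Real.sin (2 * u) ^ 2 = 1 - Real.cos (2 * u) ^ 2 := by linarith
  calc (1 - r * Real.cos (2 * u)) * (1 - r * Real.cos (2 * u)) +
      -(r * Real.sin (2 * u)) * -(r * Real.sin (2 * u))
      = 1 - 2 * r * Real.cos (2 * u) + r ^ 2 * (Real.cos (2 * u) ^ 2 + Real.sin (2 * u) ^ 2) := by
        ring
    _ = 1 - 2 * r * Real.cos (2 * u) + r ^ 2 := by rw [h5]; ring
    _ = (1 - r) ^ 2 + 4 * r * Real.sin u ^ 2 := by rw [h4]; ring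

theorem slog : S_log := by
  intro r hr0 hr1 η hη
  have h1r : 0 < 1 - r := by linarith
  obtain ⟨J₀, hJ₀⟩ := exists_pow_lt_of_lt_one (show 0 < η * (1 - r) by positivity) hr1
  refine ⟨J₀, fun J hJ u => ?_⟩
  obtain ⟨z, hz⟩ : ∃ z : ℂ, z = -((r : ℂ) * Complex.exp ((2 * u : ℝ) * Complex.I)) := ⟨_, rfl⟩
  have hnz : ‖z‖ = r := by
    rw [hz, norm_neg, norm_mul, Complex.norm_exp_ofReal_mul_I, mul_one, Complex.norm_real,
      Real.norm_eq_abs, abs_of_pos hr0]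
  have hsq := norm_one_sub r u
  have hre := re_taylor r u J
  rw [← hz] at hsq hre
  have hpos : 0 < (1 - r) ^ 2 + 4 * r * Real.sin u ^ 2 := by positivity
  have hN : 0 < ‖1 + z‖ := by
    rcases (norm_nonneg (1 + z)).eq_or_lt with h | h
    · rw [← h] at hsq
      norm_num at hsq
      linarith
    · exact h
  -- the logarithm
  have e1 : 1 / 2 * Real.log (Real.sin u ^ 2 + (1 - r) ^ 2 / (4 * r)) =
      Real.log ‖1 + z‖ - 1 / 2 * Real.log (4 * r) := by
    have h1 : Real.sin u ^ 2 + (1 - r) ^ 2 / (4 * r) = ‖1 + z‖ ^ 2 / (4 * r) := by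
      rw [hsq]
      field_simp
      ring
    rw [h1, Real.log_div (by positivity) (by positivity), Real.log_pow]
    push_cast
    ring
  have e2 : Real.log ‖1 + z‖ = (Complex.log (1 + z)).re := (Complex.log_re _).symm
  have e3 := Complex.norm_log_sub_logTaylor_le J (z := z) (by rw [hnz]; exact hr1)
  rw [hnz] at e3
  have e4 := (Complex.abs_re_le_norm (Complex.log (1 + z) - Complex.logTaylor (J + 1) z)).trans e3
  rw [Complex.sub_re] at e4
  have e5 := (abs_le.1 e4).2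
  have e6 : r ^ (J + 1) * (1 - r)⁻¹ / ((J : ℝ) + 1) ≤ η := by
    have h1 : r ^ (J + 1) ≤ r ^ J₀ := pow_le_pow_of_le_one hr0.le hr1.le (by omega)
    have h2 : r ^ (J + 1) * (1 - r)⁻¹ ≤ η := by
      rw [← div_eq_mul_inv, div_le_iff₀ h1r]
      exact h1.trans hJ₀.le
    refine (div_le_self (by positivity) ?_).trans h2
    have : (0 : ℝ) ≤ J := Nat.cast_nonneg J
    linarith
  rw [e1, e2]
  rw [hre] at e5
  linarith

end Pool.Agent.W52.PL.Log
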