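import Pool.Agent.W9.PL.Defs

/-!
# PL-ORTH (helper52)
-/

set_option autoImplicit false

namespace Pool.Agent.W52.PL.Orth

open Pool.Agent.W9.PL Finset MeasureTheory Filter
open scoped Topology

/-- Cauchy density -/
noncomputable def w (x : ℝ) : ℝ := 1 / (Real.pi * (1 + x ^ 2))

theorem w_eq (x : ℝ) : w x = Real.pi⁻¹ * (1 + x ^ 2)⁻¹ := by
  unfold w
  rw [one_div, mul_inv]

theorem w_cont : Continuous w := by
  unfold w
  refine continuous_const.div (by fun_prop) fun x => ?_
  have := Real.pi_pos
  positivity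

theorem w_nonneg (x : ℝ) : 0 ≤ w x := by
  unfold w
  have := Real.pi_pos
  positivity

theorem w_int : Integrable w := by
  have : w = fun x => Real.pi⁻¹ * (1 + x ^ 2)⁻¹ := funext w_eq
  rw [this]
  exact integrable_inv_one_add_sq.const_mul _

theorem int_w : ∫ x, w x = 1 := by
  have : w = fun x => Real.pi⁻¹ * (1 + x ^ 2)⁻¹ := funext w_eq
  rw [this, integral_const_mul, integral_univ_inv_one_add_sq]
  exact inv_mul_cancel₀ Real.pi_ne_zero

theorem int_bdd {g : ℝ → ℝ} (hg : Continuous g) (hb : ∀ x, |g x| ≤ 1) :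
    Integrable (fun x => g x * w x) := by
  refine w_int.mono' (hg.mul w_cont).aestronglyMeasurable (Eventually.of_forall fun x => ?_)
  rw [Real.norm_eq_abs, abs_mul, abs_of_nonneg (w_nonneg x)]
  have := mul_le_mul_of_nonneg_right (hb x) (w_nonneg x)
  linarith

theorem hd_arctan (x : ℝ) : HasDerivAt Real.arctan (1 / (1 + x ^ 2)) x := Real.hasDerivAt_arctan x

theorem Ic (a : ℤ) : ∫ x, Real.cos (2 * a * Real.arctan x) * w x = if a = 0 then 1 else 0 := by
  by_cases ha : a = 0
  · rw [if_pos ha, ha]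
    simp only [Int.cast_zero, mul_zero, zero_mul, Real.cos_zero, one_mul]
    exact int_w
  · rw [if_neg ha]
    have ha' : (2 * (a : ℝ)) ≠ 0 := by
      have : (a : ℝ) ≠ 0 := by exact_mod_cast ha
      positivity
    have hder : ∀ x, HasDerivAt (fun x => Real.sin (2 * a * Real.arctan x) / (2 * a * Real.pi))
        (Real.cos (2 * a * Real.arctan x) * w x) x := by
      intro x
      have h1 := ((hd_arctan x).const_mul (2 * (a : ℝ))).sin.div_const (2 * a * Real.pi)
      refine h1.congr_deriv ?_
      unfold w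
      have := Real.pi_ne_zero
      have h2 : (1 + x ^ 2) ≠ 0 := by positivity
      field_simp
    have hint := int_bdd (g := fun x => Real.cos (2 * a * Real.arctan x))
      (Real.continuous_cos.comp (continuous_const.mul Real.continuous_arctan))
      (fun x => Real.abs_cos_le_one _)
    have htop : Tendsto (fun x => Real.sin (2 * a * Real.arctan x) / (2 * a * Real.pi)) atTop
        (𝓝 (Real.sin (2 * a * (Real.pi / 2)) / (2 * a * Real.pi))) := by
      have h1 := (Real.tendsto_arctan_atTop.mono_right nhdsWithin_le_nhds)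
      exact ((Real.continuous_sin.tendsto _).comp (h1.const_mul _)).div_const _
    have hbot : Tendsto (fun x => Real.sin (2 * a * Real.arctan x) / (2 * a * Real.pi)) atBot
        (𝓝 (Real.sin (2 * a * (-(Real.pi / 2))) / (2 * a * Real.pi))) := by
      have h1 := (Real.tendsto_arctan_atBot.mono_right nhdsWithin_le_nhds)
      exact ((Real.continuous_sin.tendsto _).comp (h1.const_mul _)).div_const _
    rw [integral_of_hasDerivAt_of_tendsto hder hint hbot htop]
    have e1 : 2 * (a : ℝ) * (Real.pi / 2) = a * Real.pi := by ring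
    have e2 : 2 * (a : ℝ) * (-(Real.pi / 2)) = -(a * Real.pi) := by ring
    rw [e1, e2, Real.sin_neg, Real.sin_int_mul_pi]
    simp

theorem Is (a : ℤ) : ∫ x, Real.sin (2 * a * Real.arctan x) * w x = 0 := by
  by_cases ha : a = 0
  · rw [ha]
    simp
  · have ha' : (2 * (a : ℝ)) ≠ 0 := by
      have : (a : ℝ) ≠ 0 := by exact_mod_cast ha
      positivity
    have hder : ∀ x, HasDerivAt (fun x => -Real.cos (2 * a * Real.arctan x) / (2 * a * Real.pi))
        (Real.sin (2 * a * Real.arctan x) * w x) x := by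
      intro x
      have h1 := ((hd_arctan x).const_mul (2 * (a : ℝ))).cos.neg.div_const (2 * a * Real.pi)
      refine h1.congr_deriv ?_
      unfold w
      have := Real.pi_ne_zero
      have h2 : (1 + x ^ 2) ≠ 0 := by positivity
      field_simp
    have hint := int_bdd (g := fun x => Real.sin (2 * a * Real.arctan x))
      (Real.continuous_sin.comp (continuous_const.mul Real.continuous_arctan))
      (fun x => Real.abs_sin_le_one _)
    have htop : Tendsto (fun x => -Real.cos (2 * a * Real.arctan x) / (2 * a * Real.pi)) atTop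
        (𝓝 (-Real.cos (2 * a * (Real.pi / 2)) / (2 * a * Real.pi))) := by
      have h1 := (Real.tendsto_arctan_atTop.mono_right nhdsWithin_le_nhds)
      exact ((Real.continuous_cos.tendsto _).comp (h1.const_mul _)).neg.div_const _
    have hbot : Tendsto (fun x => -Real.cos (2 * a * Real.arctan x) / (2 * a * Real.pi)) atBot
        (𝓝 (-Real.cos (2 * a * (-(Real.pi / 2))) / (2 * a * Real.pi))) := by
      have h1 := (Real.tendsto_arctan_atBot.mono_right nhdsWithin_le_nhds)
      exact ((Real.continuous_cos.tendsto _).comp (h1.const_mul _)).neg.div_const _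
    rw [integral_of_hasDerivAt_of_tendsto hder hint hbot htop]
    have e2 : 2 * (a : ℝ) * (-(Real.pi / 2)) = -(2 * (a : ℝ) * (Real.pi / 2)) := by ring
    rw [e2, Real.cos_neg, sub_self]

/-- the modes in a uniform way -/
theorem md_zero (θ : ℝ) : md 0 θ = 1 := by simp [md]

theorem md_odd (k : ℕ) (θ : ℝ) : md (2 * k + 1) θ = √2 * Real.cos (2 * ((k + 1 : ℤ) : ℝ) * θ) := by
  unfold md
  rw [if_neg (by omega), if_pos (by omega)]
  congr 2
  push_cast
  ring

theorem md_even (k : ℕ) (θ : ℝ) : md (2 * k + 2) θ = √2 * Real.sin (2 * ((k + 1 : ℤ) : ℝ) * θ) := by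
  unfold md
  rw [if_neg (by omega), if_neg (by omega)]
  congr 2
  push_cast
  ring

theorem md_cont (i : ℕ) : Continuous (md i) := by
  unfold md
  split_ifs <;> fun_prop

theorem md_abs (i : ℕ) (θ : ℝ) : |md i θ| ≤ √2 := by
  have h2 : 1 ≤ √2 := Real.one_le_sqrt.2 (by norm_num)
  have h0 : 0 ≤ √2 := Real.sqrt_nonneg _
  unfold md
  split_ifs
  · rw [abs_one]; exact h2
  · rw [abs_mul, abs_of_nonneg h0]
    have := mul_le_mul_of_nonneg_left (Real.abs_cos_le_one (((i : ℝ) + 1) * θ)) h0
    linarith
  · rw [abs_mul, abs_of_nonneg h0]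
    have := mul_le_mul_of_nonneg_left (Real.abs_sin_le_one ((i : ℝ) * θ)) h0
    linarith

theorem cc_int (a b : ℤ) : ∫ x, (√2 * Real.cos (2 * a * Real.arctan x)) *
    (√2 * Real.cos (2 * b * Real.arctan x)) * w x =
    (if a - b = 0 then 1 else 0) + (if a + b = 0 then 1 else 0) := by
  have h2 : √2 * √2 = 2 := Real.mul_self_sqrt (by norm_num)
  have e : ∀ x, (√2 * Real.cos (2 * a * Real.arctan x)) *
      (√2 * Real.cos (2 * b * Real.arctan x)) * w x =
      Real.cos (2 * ((a - b : ℤ) : ℝ) * Real.arctan x) * w x +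
        Real.cos (2 * ((a + b : ℤ) : ℝ) * Real.arctan x) * w x := by
    intro x
    have h3 : 2 * ((a - b : ℤ) : ℝ) * Real.arctan x =
      2 * a * Real.arctan x - 2 * b * Real.arctan x := by push_cast; ring
    have h4 : 2 * ((a + b : ℤ) : ℝ) * Real.arctan x =
      2 * a * Real.arctan x + 2 * b * Real.arctan x := by push_cast; ring
    rw [h3, h4, Real.cos_sub, Real.cos_add]
    calc _ = (√2 * √2) * (Real.cos (2 * a * Real.arctan x) *
          Real.cos (2 * b * Real.arctan x)) * w x := by ring
      _ = _ := by rw [h2]; ring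
  simp_rw [e]
  rw [integral_add, Ic, Ic]
  · exact int_bdd (g := fun x => Real.cos (2 * ((a - b : ℤ) : ℝ) * Real.arctan x))
      (Real.continuous_cos.comp (continuous_const.mul Real.continuous_arctan))
      (fun x => Real.abs_cos_le_one _)
  · exact int_bdd (g := fun x => Real.cos (2 * ((a + b : ℤ) : ℝ) * Real.arctan x))
      (Real.continuous_cos.comp (continuous_const.mul Real.continuous_arctan))
      (fun x => Real.abs_cos_le_one _)

theorem ss_int (a b : ℤ) : ∫ x, (√2 * Real.sin (2 * a * Real.arctan x)) *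
    (√2 * Real.sin (2 * b * Real.arctan x)) * w x =
    (if a - b = 0 then 1 else 0) - (if a + b = 0 then 1 else 0) := by
  have h2 : √2 * √2 = 2 := Real.mul_self_sqrt (by norm_num)
  have e : ∀ x, (√2 * Real.sin (2 * a * Real.arctan x)) *
      (√2 * Real.sin (2 * b * Real.arctan x)) * w x =
      Real.cos (2 * ((a - b : ℤ) : ℝ) * Real.arctan x) * w x -
        Real.cos (2 * ((a + b : ℤ) : ℝ) * Real.arctan x) * w x := by
    intro x
    have h3 : 2 * ((a - b : ℤ) : ℝ) * Real.arctan x =
      2 * a * Real.arctan x - 2 * b * Real.arctan x := by push_cast; ring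
    have h4 : 2 * ((a + b : ℤ) : ℝ) * Real.arctan x =
      2 * a * Real.arctan x + 2 * b * Real.arctan x := by push_cast; ring
    rw [h3, h4, Real.cos_sub, Real.cos_add]
    calc _ = (√2 * √2) * (Real.sin (2 * a * Real.arctan x) *
          Real.sin (2 * b * Real.arctan x)) * w x := by ring
      _ = _ := by rw [h2]; ring
  simp_rw [e]
  rw [integral_sub, Ic, Ic]
  · exact int_bdd (g := fun x => Real.cos (2 * ((a - b : ℤ) : ℝ) * Real.arctan x))
      (Real.continuous_cos.comp (continuous_const.mul Real.continuous_arctan))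
      (fun x => Real.abs_cos_le_one _)
  · exact int_bdd (g := fun x => Real.cos (2 * ((a + b : ℤ) : ℝ) * Real.arctan x))
      (Real.continuous_cos.comp (continuous_const.mul Real.continuous_arctan))
      (fun x => Real.abs_cos_le_one _)

theorem cs_int (a b : ℤ) : ∫ x, (√2 * Real.cos (2 * a * Real.arctan x)) *
    (√2 * Real.sin (2 * b * Real.arctan x)) * w x = 0 := by
  have h2 : √2 * √2 = 2 := Real.mul_self_sqrt (by norm_num)
  have e : ∀ x, (√2 * Real.cos (2 * a * Real.arctan x)) *
      (√2 * Real.sin (2 * b * Real.arctan x)) * w x =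
      Real.sin (2 * ((a + b : ℤ) : ℝ) * Real.arctan x) * w x -
        Real.sin (2 * ((a - b : ℤ) : ℝ) * Real.arctan x) * w x := by
    intro x
    have h3 : 2 * ((a - b : ℤ) : ℝ) * Real.arctan x =
      2 * a * Real.arctan x - 2 * b * Real.arctan x := by push_cast; ring
    have h4 : 2 * ((a + b : ℤ) : ℝ) * Real.arctan x =
      2 * a * Real.arctan x + 2 * b * Real.arctan x := by push_cast; ring
    rw [h3, h4, Real.sin_sub, Real.sin_add]
    calc _ = (√2 * √2) * (Real.cos (2 * a * Real.arctan x) *
          Real.sin (2 * b * Real.arctan x)) * w x := by ring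
      _ = _ := by rw [h2]; ring
  simp_rw [e]
  rw [integral_sub, Is, Is, sub_zero]
  · exact int_bdd (g := fun x => Real.sin (2 * ((a + b : ℤ) : ℝ) * Real.arctan x))
      (Real.continuous_sin.comp (continuous_const.mul Real.continuous_arctan))
      (fun x => Real.abs_sin_le_one _)
  · exact int_bdd (g := fun x => Real.sin (2 * ((a - b : ℤ) : ℝ) * Real.arctan x))
      (Real.continuous_sin.comp (continuous_const.mul Real.continuous_arctan))
      (fun x => Real.abs_sin_le_one _)

theorem c_int (a : ℤ) (ha : a ≠ 0) : ∫ x, (√2 * Real.cos (2 * a * Real.arctan x)) * w x = 0 := by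
  simp_rw [mul_assoc (√2)]
  rw [integral_const_mul, Ic, if_neg ha, mul_zero]

theorem s_int (a : ℤ) : ∫ x, (√2 * Real.sin (2 * a * Real.arctan x)) * w x = 0 := by
  simp_rw [mul_assoc (√2)]
  rw [integral_const_mul, Is, mul_zero]

theorem cases3 (i : ℕ) : i = 0 ∨ (∃ k, i = 2 * k + 1) ∨ ∃ k, i = 2 * k + 2 := by
  rcases Nat.eq_zero_or_pos i with h | h
  · exact Or.inl h
  · rcases Nat.even_or_odd' i with ⟨k, hk | hk⟩
    · exact Or.inr (Or.inr ⟨k - 1, by omega⟩)
    · exact Or.inr (Or.inl ⟨k, hk⟩)

theorem int_md (i j : ℕ) : ∫ x, md i (Real.arctan x) * md j (Real.arctan x) * w x =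
    if i = j then 1 else 0 := by
  rcases cases3 i with rfl | ⟨k, rfl⟩ | ⟨k, rfl⟩ <;>
    rcases cases3 j with rfl | ⟨l, rfl⟩ | ⟨l, rfl⟩
  · simp only [md_zero, one_mul, if_true]
    exact int_w
  · simp only [md_zero, md_odd, one_mul]
    rw [if_neg (by omega), c_int _ (by omega)]
  · simp only [md_zero, md_even, one_mul]
    rw [if_neg (by omega), s_int]
  · simp only [md_zero, md_odd, mul_one]
    rw [if_neg (by omega), c_int _ (by omega)]
  · simp only [md_odd]
    rw [cc_int, if_neg (show ¬ ((k + 1 : ℤ) + (l + 1 : ℤ) = 0) by omega), add_zero]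
    by_cases h : k = l
    · rw [if_pos (by omega), if_pos (by omega)]
    · rw [if_neg (by omega), if_neg (by omega)]
  · simp only [md_odd, md_even]
    rw [if_neg (by omega), cs_int]
  · simp only [md_zero, md_even, mul_one]
    rw [if_neg (by omega), s_int]
  · simp only [md_odd, md_even]
    rw [if_neg (by omega)]
    have e : ∀ x, (√2 * Real.sin (2 * ((k + 1 : ℤ) : ℝ) * Real.arctan x)) *
        (√2 * Real.cos (2 * ((l + 1 : ℤ) : ℝ) * Real.arctan x)) * w x =
        (√2 * Real.cos (2 * ((l + 1 : ℤ) : ℝ) * Real.arctan x)) *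
        (√2 * Real.sin (2 * ((k + 1 : ℤ) : ℝ) * Real.arctan x)) * w x := fun x => by ring
    simp_rw [e]
    exact cs_int _ _
  · simp only [md_even]
    rw [ss_int, if_neg (show ¬ ((k + 1 : ℤ) + (l + 1 : ℤ) = 0) by omega), sub_zero]
    by_cases h : k = l
    · rw [if_pos (by omega), if_pos (by omega)]
    · rw [if_neg (by omega), if_neg (by omega)]

theorem orth (h : S_rs) : S_orth := by
  intro i j
  have hc : Continuous fun x => md i (Real.arctan x) * md j (Real.arctan x) * w x :=
    (((md_cont i).comp Real.continuous_arctan).mul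
      ((md_cont j).comp Real.continuous_arctan)).mul w_cont
  have hb : ∃ C, ∀ x, |md i (Real.arctan x) * md j (Real.arctan x) * w x| ≤ C / (1 + x ^ 2) := by
    refine ⟨2 * Real.pi⁻¹, fun x => ?_⟩
    rw [abs_mul, abs_mul, abs_of_nonneg (w_nonneg x), w_eq]
    have h1 : |md i (Real.arctan x)| * |md j (Real.arctan x)| ≤ √2 * √2 :=
      mul_le_mul (md_abs i _) (md_abs j _) (abs_nonneg _) (Real.sqrt_nonneg _)
    rw [Real.mul_self_sqrt (by norm_num)] at h1
    have h2 : 0 ≤ Real.pi⁻¹ * (1 + x ^ 2)⁻¹ := by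
      have := Real.pi_pos
      positivity
    calc _ ≤ 2 * (Real.pi⁻¹ * (1 + x ^ 2)⁻¹) := mul_le_mul_of_nonneg_right h1 h2
      _ = 2 * Real.pi⁻¹ / (1 + x ^ 2) := by ring
  have h1 := h _ hc hb
  rw [int_md] at h1
  refine h1.congr fun m => ?_
  rw [Finset.mul_sum]
  apply Finset.sum_congr rfl
  intro l _
  unfold cw th w
  rw [mul_comm, mul_assoc, mul_comm (md i _ * md j _)]
  have : 1 / ((m : ℝ) * (Real.pi * (1 + gx m l ^ 2))) =
    (1 / (m : ℝ)) * (1 / (Real.pi * (1 + gx m l ^ 2))) := by
    rw [one_div, mul_inv, one_div, one_div]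
  rw [this]
  ring

end Pool.Agent.W52.PL.Orth
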